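import Pool.Agent.H846.Deg2.Ops

/-!
# Correspondences detected by curves have nonisotropic images
-/

open CategoryTheory AlgebraicGeometry Finset

universe u v

namespace Pool.Agent.H846.Deg2

open Pool.Agent.H914 Pool.Agent.H914.VarClass Pool.Agent.H914.VarClass.Obj
  Pool.Agent.H914.WeilCohomology Pool.Agent.H281R3.HT Pool.Agent.W552 Pool.Agent.W539.Ker
  Pool.Agent.R911.Iso Pool.Agent.H447 Pool.Agent.H846.Det Pool.Agent.H846.Plc
  Pool.Agent.H846.Hdt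

variable {k : Type u} [Field k] {𝒱 : VarClass k} {ops : CycleOps 𝒱}
  {W : WeilCohomology.{u, v} ops}

/-- A class in the top degree is zero if its trace is zero. -/
lemma eq_zero_top {X : 𝒱.Obj} {a : W.H X} (ha : a ∈ W.gr X (2 * X.dim)) (h : W.tr X a = 0) :
    a = 0 := by
  apply HKn.eq_zero_of_tr ha (j := 0) (by omega)
  intro b hb
  rw [W.gr_zero, Submodule.mem_span_singleton] at hb
  obtain ⟨r, rfl⟩ := hb
  rw [smul_mul_assoc, one_mul, map_smul, h, smul_zero]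

/-- The degree of the divisor is positive. -/
lemma deg_pos {Q : Polarized 𝒱} (hD : Q.X.IsCyc 1 Q.D) (hH : HomHodgeUpTo W Q 1)
    (h1 : (1 : W.H Q.X) ≠ 0) :
    ∃ q : ℚ, 0 < q ∧ W.tr Q.X (W.cl Q.X Q.D ^ Q.X.dim) = q := by
  have h2 : W.cl Q.X (divPow ops Q.D (Q.X.dim - 2 * 0) Q.X.V.fundCycle) =
      W.cl Q.X Q.D ^ Q.X.dim := by
    rw [cl_divPow, W.cl_fund, LinearMap.pow_mulLeft, LinearMap.mulLeft_apply, mul_one,
      Nat.mul_zero, Nat.sub_zero]
  have h3 : Primitive W Q.X Q.D 0 Q.X.V.fundCycle := by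
    refine ⟨Q.X.V.fundCycle_mem, ?_⟩
    have h4 := W.cl_mem (divPow_mem (ops := ops) hD (Q.X.dim - 2 * 0 + 1)
      (Q.X.V.fundCycle_mem : Q.X.IsCyc 0 Q.X.V.fundCycle))
    rw [W.gr_eq_bot _ _ (by omega)] at h4
    exact (Submodule.mem_bot _).1 h4
  have h5 := hH 0 (by omega) (by omega) _ h3 (by
    rw [classOf, W.cl_fund]
    exact h1)
  refine ⟨_, h5, ?_⟩
  have h6 : Q.X.IsCyc (0 + (0 + (Q.X.dim - 2 * 0))) (ops.mul Q.X.V.fundCycle
      (divPow ops Q.D (Q.X.dim - 2 * 0) Q.X.V.fundCycle)) :=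
    ops.mul_mem Q.X.V.fundCycle_mem (divPow_mem hD _ Q.X.V.fundCycle_mem)
  have h7 : Q.X.IsCyc Q.X.dim (ops.mul Q.X.V.fundCycle
      (divPow ops Q.D (Q.X.dim - 2 * 0) Q.X.V.fundCycle)) := by
    convert h6 using 1
    omega
  rw [pairing, pow_zero, one_mul, ← W.tr_cl h7, W.cl_mul, W.cl_fund, one_mul, h2]

/-- **The Hodge index theorem.** -/
theorem form2_pos {Q : Polarized 𝒱} (hd : 2 ≤ Q.X.dim) (hD : Q.X.IsCyc 1 Q.D)
    (hH : HomHodgeUpTo W Q 1) {c : W.H Q.X} (hc : c ∈ algClasses W Q.X 1) (hc0 : c ≠ 0) :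
    ∃ q : ℚ, 0 < q ∧ form2 W Q.X Q.D c c = q := by
  have h1 : (1 : W.H Q.X) ≠ 0 := by
    intro h
    apply hc0
    rw [← one_mul c, h, zero_mul]
  obtain ⟨δ, hδ, hδ'⟩ := deg_pos hD hH h1
  set ξ := W.cl Q.X Q.D with hξ
  have hξa : ξ ∈ algClasses W Q.X 1 := ⟨Q.D, hD, rfl⟩
  obtain ⟨l, hl⟩ := ((AS.of hc).mul (as_pow (W := W) hD (Q.X.dim - 1))).tr
  -- the primitive class
  set c' := (δ : W.K) • c - (l : W.K) • ξ with hc'
  have hc'a : c' ∈ algClasses W Q.X 1 := alg_sub (alg_smul δ hc) (alg_smul l hξa)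
  obtain ⟨z, hz, hzc⟩ := hc'a
  have hδK : (δ : W.K) ≠ 0 := by exact_mod_cast hδ.ne'
  have hξn : W.tr Q.X (ξ * ξ ^ (Q.X.dim - 1)) = δ := by
    rw [← pow_succ', show Q.X.dim - 1 + 1 = Q.X.dim by omega, hδ']
  have h2 : W.tr Q.X (c' * ξ ^ (Q.X.dim - 1)) = 0 := by
    rw [hc', sub_mul, smul_mul_assoc, smul_mul_assoc, map_sub, map_smul, map_smul, hl, hξn,
      smul_eq_mul, smul_eq_mul]
    ring
  have hprim : Primitive W Q.X Q.D 1 z := by
    refine ⟨hz, ?_⟩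
    rw [cl_divPow, hzc, LinearMap.pow_mulLeft, LinearMap.mulLeft_apply,
      show Q.X.dim - 2 * 1 + 1 = Q.X.dim - 1 by omega, pow_comm hD]
    apply eq_zero_top _ h2
    have h3 := W.mul_mem (X := Q.X) (a := c') (by rw [← hzc]; exact W.cl_mem hz)
      (pow_mem hD (Q.X.dim - 1))
    rwa [show 2 * 1 + 2 * (Q.X.dim - 1) = 2 * Q.X.dim by omega] at h3
  -- the pairing
  have hp : W.tr Q.X (c' * c' * ξ ^ (Q.X.dim - 2)) = ((-pairing ops Q.X Q.D 1 z z : ℚ) : W.K) := by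
    have h4 : Q.X.IsCyc (1 + (1 + (Q.X.dim - 2 * 1)))
        (ops.mul z (divPow ops Q.D (Q.X.dim - 2 * 1) z)) := ops.mul_mem hz (divPow_mem hD _ hz)
    have h5 : Q.X.IsCyc Q.X.dim (ops.mul z (divPow ops Q.D (Q.X.dim - 2 * 1) z)) := by
      convert h4 using 1
      omega
    rw [pairing, pow_one, neg_one_mul, neg_neg, ← W.tr_cl h5, W.cl_mul, cl_divPow,
      LinearMap.pow_mulLeft, LinearMap.mulLeft_apply, hzc, pow_comm hD, ← mul_assoc, ← hξ,
      mul_one 2]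
  have hpos : c' ≠ 0 → 0 < pairing ops Q.X Q.D 1 z z := by
    intro h
    apply hH 1 le_rfl (by omega) z hprim
    rw [classOf, hzc]
    exact h
  have hnn : 0 ≤ pairing ops Q.X Q.D 1 z z := by
    by_cases h : c' = 0
    · rw [h, zero_mul, zero_mul, map_zero] at hp
      have : (0 : ℚ) = -pairing ops Q.X Q.D 1 z z := by exact_mod_cast hp
      linarith
    · exact (hpos h).le
  set p := pairing ops Q.X Q.D 1 z z with hpd
  -- the form
  have hcomm : ∀ x : W.H Q.X, ξ * x = x * ξ := fun x => (AS.of hξa).comm x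
  obtain ⟨r, hr⟩ := (((AS.of hc).mul (AS.of hc)).mul (as_pow (W := W) hD (Q.X.dim - 2))).tr
  have hδc : (δ : W.K) • c = c' + (l : W.K) • ξ := by rw [hc', sub_add_cancel]
  have h6 : (δ : W.K) ^ 2 * W.tr Q.X (c * c * ξ ^ (Q.X.dim - 2)) =
      ((-p + l ^ 2 * δ : ℚ) : W.K) := by
    have h7 : (δ : W.K) ^ 2 * W.tr Q.X (c * c * ξ ^ (Q.X.dim - 2)) =
        W.tr Q.X (((δ : W.K) • c) * ((δ : W.K) • c) * ξ ^ (Q.X.dim - 2)) := by
      rw [smul_mul_smul_comm, smul_mul_assoc, map_smul, smul_eq_mul, sq]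
    have h8 : c' * ξ * ξ ^ (Q.X.dim - 2) = c' * ξ ^ (Q.X.dim - 1) := by
      rw [mul_assoc, ← pow_succ', show Q.X.dim - 2 + 1 = Q.X.dim - 1 by omega]
    have h9 : ξ * ξ * ξ ^ (Q.X.dim - 2) = ξ ^ Q.X.dim := by
      rw [mul_assoc, ← pow_succ', ← pow_succ', show Q.X.dim - 2 + 1 + 1 = Q.X.dim by omega]
    rw [h7, hδc, add_mul, mul_add, mul_add, add_mul, add_mul, add_mul, map_add, map_add, map_add,
      hp, mul_smul_comm, smul_mul_assoc, map_smul, h8, h2, smul_mul_assoc, smul_mul_assoc,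
      hcomm c', map_smul, h8, h2, smul_mul_smul_comm, smul_mul_assoc, map_smul, h9, hδ']
    simp only [smul_eq_mul]
    push_cast
    ring
  have h7 : (δ : W.K) ^ 2 * W.tr Q.X (c * c * ξ ^ (Q.X.dim - 2)) = ((δ ^ 2 * r : ℚ) : W.K) := by
    rw [hr]
    push_cast
    ring
  have h8 : δ ^ 2 * r = -p + l ^ 2 * δ := by
    rw [h6] at h7
    exact_mod_cast h7.symm
  refine ⟨2 * l ^ 2 - δ * r, ?_, ?_⟩
  · have h9 : δ ^ 2 * (2 * l ^ 2 - δ * r) = δ * p + l ^ 2 * δ ^ 2 := by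
      linear_combination (-δ) * h8
    have h10 : 0 < δ * p + l ^ 2 * δ ^ 2 := by
      by_cases h : c' = 0
      · have hl0 : l ≠ 0 := by
          rintro rfl
          rw [h, Rat.cast_zero, zero_smul, add_zero] at hδc
          rcases smul_eq_zero.1 hδc with h11 | h11
          · exact hδK h11
          · exact hc0 h11
        have : 0 < l ^ 2 * δ ^ 2 := by positivity
        have : 0 ≤ δ * p := by positivity
        linarith
      · have h11 := hpos h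
        have : 0 < δ * p := by positivity
        have : 0 ≤ l ^ 2 * δ ^ 2 := by positivity
        linarith
    rw [← h9] at h10
    have h12 : 0 < δ ^ 2 := by positivity
    exact (mul_pos_iff_of_pos_left h12).1 h10
  · rw [form2_eq, ← hξ, hl, hδ', hr]
    push_cast
    ring

/-- The form is compatible with the comparison isomorphisms. -/
lemma form2_spec {k₀ : Type u} [Field k₀] {𝒱₀ : VarClass k₀} {ops₀ : CycleOps 𝒱₀}
    {W₀ : WeilCohomology.{u, v} ops₀} {Q : Polarized 𝒱} {Q₀ : Polarized 𝒱₀} {σ : CoefIso W W₀}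
    {t : CohIso W W₀ Q.X Q₀.X} (ht : IsComparison W W₀ Q Q₀ σ t) (x y : W.H Q.X) :
    form2 W₀ Q₀.X Q₀.D (t x) (t y) = σ (form2 W Q.X Q.D x y) := by
  rw [form2_eq, form2_eq, ← ht.cl_eq', ht.dim_eq, ← map_pow t, ← map_pow t, ← map_pow t, ← map_mul t,
    ← map_mul t, ← map_mul t, ← map_mul t, ht.tr_eq', ht.tr_eq', ht.tr_eq', ht.tr_eq',
    map_sub σ, map_mul σ, map_mul σ, map_mul σ, map_ofNat σ]

/-- The inverse of a comparison isomorphism preserves the degrees. -/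
lemma symm_mem {k₀ : Type u} [Field k₀] {𝒱₀ : VarClass k₀} {ops₀ : CycleOps 𝒱₀}
    {W₀ : WeilCohomology.{u, v} ops₀} {Q : Polarized 𝒱} {Q₀ : Polarized 𝒱₀} {σ : CoefIso W W₀}
    {t : CohIso W W₀ Q.X Q₀.X} (ht : IsComparison W W₀ Q Q₀ σ t) {j : ℕ} {x : W₀.H Q₀.X}
    (hx : x ∈ W₀.gr Q₀.X j) : t.symm x ∈ W.gr Q.X j := by
  have h1 : ∀ i, t (proj (W.isInternal Q.X) i (t.symm x)) =
      proj (W₀.isInternal Q₀.X) i x := by
    intro i
    have h2 : ∀ y : W.H Q.X, t (proj (W.isInternal Q.X) i y) =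
        proj (W₀.isInternal Q₀.X) i (t y) := by
      intro y
      refine gr_induction (W.isInternal Q.X) (p := fun y => t (proj (W.isInternal Q.X) i y) =
        proj (W₀.isInternal Q₀.X) i (t y)) ?_ ?_ y
      · intro l a ha
        by_cases hl : l = i
        · subst hl
          rw [proj_same _ ha, proj_same _ (ht.mem' _ _ ha)]
        · rw [proj_ne _ ha hl, proj_ne _ (ht.mem' _ _ ha) hl, map_zero]
      · intro a b ha hb
        rw [map_add, map_add, map_add, map_add, ha, hb]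
    have := h2 (t.symm x)
    rwa [t.apply_symm_apply] at this
  have h3 := h1 j
  rw [proj_same _ hx] at h3
  rw [← h3, t.symm_apply_apply]
  exact proj_mem _ _ _

/-- **Correspondences detected by curves have nonisotropic images.** -/
theorem nonisotropic_of_curve {P Q : Polarized 𝒱} (hP : 2 ≤ P.X.dim) (hd : 2 ≤ Q.X.dim)
    {z : (P.X.prod Q.X).Cycles} (h : IsDetectedByCurve W P Q z) :
    HasNonisotropicImage W P Q z := by
  obtain ⟨k₀, _, 𝒱₀, ops₀, W₀, P₀, Q₀, S, hH, z₀, c, hz₀, hz, hc, hne⟩ := h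
  have hdP := S.fst.dim_eq
  have hdQ := S.snd.dim_eq
  have hcm : classOf W₀ P₀.X c ∈ W₀.gr P₀.X (2 * P.X.dim - 2) := by
    have h1 := W₀.cl_mem hc
    rwa [show 2 * (P₀.X.dim - 1) = 2 * P.X.dim - 2 by omega] at h1
  set y := S.s.symm (classOf W₀ P₀.X c) with hy
  have hym : y ∈ W.gr P.X (2 * P.X.dim - 2) := symm_mem S.fst hcm
  have h1 : S.t (corrMap W z y) = corrMap W₀ z₀ (classOf W₀ P₀.X c) := by
    have h2 := hz y hym
    rw [isoMap, isoMap, hy, RingEquiv.apply_symm_apply] at h2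
    exact h2
  refine ⟨y, y, hym, hym, fun h0 => ?_⟩
  have halg : corrMap W₀ z₀ (classOf W₀ P₀.X c) ∈ algClasses W₀ Q₀.X 1 := by
    apply AS.alg
    · exact AS.corr (AS.of ⟨z₀, hz₀, rfl⟩) (AS.of ⟨c, hc, rfl⟩)
    · apply Hm.mem (hm_cyc hz₀) (W₀.cl_mem hc)
      rw [dim_prod]
      omega
  obtain ⟨q, hq, hq'⟩ := form2_pos (by omega) S.snd.isCyc hH halg hne
  rw [← h1, form2_spec S.snd, h0, map_zero] at hq'
  exact hq.ne' (by exact_mod_cast hq'.symm)

end Pool.Agent.H846.Deg2
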