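import Pool.Agent.H846.Hdt.Defs

/-!
# Correspondences of codimension two which are detected by curves: definitions
-/

open CategoryTheory AlgebraicGeometry

universe u v

namespace Pool.Agent.H846.Deg2

open Pool.Agent.H914 Pool.Agent.H914.VarClass Pool.Agent.H914.VarClass.Obj
  Pool.Agent.H281R3.HT Pool.Agent.H846.Det Pool.Agent.H846.Plc Pool.Agent.H846.Hdt

/-- The form `2 tr(x ξ ^ (n - 1)) tr(y ξ ^ (n - 1)) - tr(ξ ^ n) tr(x y ξ ^ (n - 2))`. -/
def hrForm {K A : Type*} [Field K] [Ring A] [Algebra K A] (tr : A →ₗ[K] K) (ξ : A) (n : ℕ)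
    (x y : A) : K :=
  2 * tr (x * ξ ^ (n - 1)) * tr (y * ξ ^ (n - 1)) - tr (ξ ^ n) * tr (x * y * ξ ^ (n - 2))

variable {k : Type u} [Field k] {𝒱 : VarClass k} {ops : CycleOps 𝒱}

/-- The form `2 tr(x ξ ^ (n - 1)) tr(y ξ ^ (n - 1)) - tr(ξ ^ n) tr(x y ξ ^ (n - 2))` on `H^2(X)`,
where `ξ` is the class of `D` and `n` the dimension of `X`. In characteristic zero it is a
polarization of the Hodge structure `H^2(X)` for `D` ample. -/
noncomputable def form2 (W : WeilCohomology.{u, v} ops) (X : 𝒱.Obj) (D : X.Cycles)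
    (x y : W.H X) : W.K := hrForm (W.tr X) (classOf W X D) X.dim x y

/-- The class `y` is in `H^j(X)`. -/
def InDegree (W : WeilCohomology.{u, v} ops) (X : 𝒱.Obj) (j : ℕ) (y : W.H X) : Prop :=
  y ∈ W.gr X j

/-- The cycle `z` of codimension two on `X × Y` acts nontrivially from `H^(2n - 2)(X)` to
`H^2(Y)`, where `n = dim X`. -/
def ActsNontrivially (W : WeilCohomology.{u, v} ops) (P Q : Polarized 𝒱)
    (z : (P.X.prod Q.X).Cycles) : Prop :=
  ∃ y, InDegree W P.X (2 * P.X.dim - 2) y ∧ corrMap W z y ≠ 0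

/-- The image of `H^(2n - 2)(X)` in `H^2(Y)` under the cycle `z` of codimension two on `X × Y` is
not totally isotropic for the form `form2` on `H^2(Y)`. In characteristic zero this is the case for
all cycles which act nontrivially, by the Hodge-Riemann relations. -/
def HasNonisotropicImage (W : WeilCohomology.{u, v} ops) (P Q : Polarized 𝒱)
    (z : (P.X.prod Q.X).Cycles) : Prop :=
  ∃ y y', InDegree W P.X (2 * P.X.dim - 2) y ∧ InDegree W P.X (2 * P.X.dim - 2) y' ∧
    form2 W Q.X Q.D (corrMap W z y) (corrMap W z y') ≠ 0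

variable {k₀ : Type u} [Field k₀] {𝒱₀ : VarClass k₀} {ops₀ : CycleOps 𝒱₀}

/-- The cycle `z₀` on `X₀ × Y₀` acts on `H^(2n - 2)(X₀)` as the cycle `z` on `X × Y` acts on
`H^(2n - 2)(X)`, where `n = dim X`. -/
def ActsAs {W : WeilCohomology.{u, v} ops} {W₀ : WeilCohomology.{u, v} ops₀}
    {P Q : Polarized 𝒱} {P₀ Q₀ : Polarized 𝒱₀} (S : Place W W₀ P Q P₀ Q₀)
    (z : (P.X.prod Q.X).Cycles) (z₀ : (P₀.X.prod Q₀.X).Cycles) : Prop :=
  ∀ y, InDegree W P.X (2 * P.X.dim - 2) y →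
    isoMap S.t (corrMap W z y) = corrMap W₀ z₀ (isoMap S.s y)

/-- The cycle `z` of codimension two on `X × Y` is detected by a curve at the place `(X₀, Y₀)`:
there is a cycle `z₀` of codimension two on `X₀ × Y₀` which acts on `H^(2n - 2)(X₀)` as `z` acts on
`H^(2n - 2)(X)`, and there is a cycle `c` of dimension one on `X₀` such that the class of the
divisor `z₀(c)` on `Y₀` is not zero. -/
def IsDetectedAt {W : WeilCohomology.{u, v} ops} {W₀ : WeilCohomology.{u, v} ops₀}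
    {P Q : Polarized 𝒱} {P₀ Q₀ : Polarized 𝒱₀} (S : Place W W₀ P Q P₀ Q₀)
    (z : (P.X.prod Q.X).Cycles) : Prop :=
  ∃ (z₀ : (P₀.X.prod Q₀.X).Cycles) (c : P₀.X.Cycles), (P₀.X.prod Q₀.X).IsCyc 2 z₀ ∧
    ActsAs S z z₀ ∧ P₀.X.IsCyc (P₀.X.dim - 1) c ∧ corrMap W₀ z₀ (classOf W₀ P₀.X c) ≠ 0

/-- The cycle `z` of codimension two on `X × Y` is detected by a curve at some place `(X₀, Y₀)`
(for example a specialisation of `X` and `Y`) such that the Hodge index theorem holds for `Y₀`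
(that is the standard conjecture of Hodge type in the codimensions zero and one, which is a
theorem). -/
def IsDetectedByCurve (W : WeilCohomology.{u, v} ops) (P Q : Polarized 𝒱)
    (z : (P.X.prod Q.X).Cycles) : Prop :=
  ∃ (k₀ : Type u) (_ : Field k₀) (𝒱₀ : VarClass k₀) (ops₀ : CycleOps 𝒱₀)
    (W₀ : WeilCohomology.{u, v} ops₀) (P₀ Q₀ : Polarized 𝒱₀) (S : Place W W₀ P Q P₀ Q₀),
    HomHodgeUpTo W₀ Q₀ 1 ∧ IsDetectedAt S z

/-- The polarized variety `P = (X, D)` and the set `𝒴` of polarized varieties of dimension at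
least two, to which it belongs, have the property that each cycle of codimension two on `X × Y`,
where `Y` is in `𝒴`, which acts nontrivially from `H^(2n - 2)(X)` to `H^2(Y)`, has a nonisotropic
image or is detected by a curve at some place (which may depend on the cycle). -/
structure IsTestClass (W : WeilCohomology.{u, v} ops) (P : Polarized 𝒱)
    (𝒴 : Polarized 𝒱 → Prop) : Prop where
  mem : 𝒴 P
  two_le : ∀ Q, 𝒴 Q → 2 ≤ Q.X.dim
  isCyc : ∀ Q, 𝒴 Q → Q.X.IsCyc 1 Q.D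
  detected : ∀ Q, 𝒴 Q → ∀ z : (P.X.prod Q.X).Cycles, (P.X.prod Q.X).IsCyc 2 z →
    ActsNontrivially W P Q z → HasNonisotropicImage W P Q z ∨ IsDetectedByCurve W P Q z

/-- The class `D ^ m y`. -/
noncomputable def powMul (W : WeilCohomology.{u, v} ops) (X : 𝒱.Obj) (D : X.Cycles) (m : ℕ)
    (y : W.H X) : W.H X := classOf W X D ^ m * y

/-- The cycle `e` on `X × X` satisfies `z ∘ D ^ (n - 2) ∘ e = z` on `H^(2n - 2)(X)` for all cycles
`z` of codimension two on `X × Y` and all `Y` in `𝒴`, where `n = dim X`. -/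
def IsRightUnit (W : WeilCohomology.{u, v} ops) (P : Polarized 𝒱) (𝒴 : Polarized 𝒱 → Prop)
    (e : (P.X.prod P.X).Cycles) : Prop :=
  ∀ Q, 𝒴 Q → ∀ z : (P.X.prod Q.X).Cycles, (P.X.prod Q.X).IsCyc 2 z →
    ∀ y, InDegree W P.X (2 * P.X.dim - 2) y →
      corrMap W z (powMul W P.X P.D (P.X.dim - 2) (corrMap W e y)) = corrMap W z y

/-- For every single nonzero class `y` in `H^(2n - 2)(X)`, `n = dim X`, there are `Y` in `𝒴` and a
cycle `z` of codimension two on `X × Y` such that `z(y)` is not zero. -/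
def NonzeroAtEachClass (W : WeilCohomology.{u, v} ops) (P : Polarized 𝒱)
    (𝒴 : Polarized 𝒱 → Prop) : Prop :=
  ∀ y, InDegree W P.X (2 * P.X.dim - 2) y → y ≠ 0 → ∃ Q, 𝒴 Q ∧
    ∃ z : (P.X.prod Q.X).Cycles, (P.X.prod Q.X).IsCyc 2 z ∧ corrMap W z y ≠ 0

end Pool.Agent.H846.Deg2
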