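import Pool.Agent.H846.Deg2.Defs
import Pool.Agent.H846.Hdt.Pos
import Pool.Graph.R_seed8.W537.OneCycleDefs

/-!
# The Hodge-Riemann form on the cohomology in degree two
-/

open CategoryTheory AlgebraicGeometry Finset

universe u v

namespace Pool.Agent.H846.Deg2

open Pool.Agent.H914 Pool.Agent.H914.VarClass Pool.Agent.H914.VarClass.Obj
  Pool.Agent.H914.WeilCohomology Pool.Agent.H281R3.HT Pool.Agent.W552 Pool.Agent.W539.Ker
  Pool.Agent.R911.Iso Pool.Agent.H447 Pool.Agent.W537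

variable {k : Type u} [Field k] {𝒱 : VarClass k} {ops : CycleOps 𝒱}
  {W : WeilCohomology.{u, v} ops} {X Y : 𝒱.Obj} {D : X.Cycles} {E : Y.Cycles}

/-- The operator `x ↦ 2 tr(x a) b - c x`. -/
noncomputable def rk (W : WeilCohomology.{u, v} ops) (X : 𝒱.Obj) (c : W.K) (a b : W.H X) :
    Module.End W.K (W.H X) :=
  (W.tr X ∘ₗ LinearMap.mulRight W.K a).smulRight ((2 : W.K) • b) - c • 1

lemma rk_apply (c : W.K) (a b x : W.H X) :
    rk W X c a b x = (2 * W.tr X (x * a)) • b - c • x := by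
  rw [rk, LinearMap.sub_apply, LinearMap.smulRight_apply, LinearMap.comp_apply,
    LinearMap.mulRight_apply, LinearMap.smul_apply, Module.End.one_apply, smul_smul]
  congr 2
  ring

lemma form2_eq (x y : W.H X) : form2 W X D x y =
    2 * W.tr X (x * W.cl X D ^ (X.dim - 1)) * W.tr X (y * W.cl X D ^ (X.dim - 1)) -
      W.tr X (W.cl X D ^ X.dim) * W.tr X (x * y * W.cl X D ^ (X.dim - 2)) := rfl

/-- Powers of the class of a divisor are algebraic. -/
lemma as_pow (hD : X.IsCyc 1 D) (m : ℕ) : AS W X (W.cl X D ^ m) := by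
  induction m with
  | zero => rw [pow_zero]; exact AS.one
  | succ m ih => rw [pow_succ]; exact ih.mul (AS.of ⟨D, hD, rfl⟩)

lemma pow_mem (hD : X.IsCyc 1 D) (m : ℕ) : W.cl X D ^ m ∈ W.gr X (2 * m) := by
  induction m with
  | zero => rw [pow_zero]; exact W.one_mem X
  | succ m ih =>
    rw [pow_succ, show 2 * (m + 1) = 2 * m + 2 * 1 by ring]
    exact W.mul_mem ih (W.cl_mem hD)

lemma pow_comm (hD : X.IsCyc 1 D) (m : ℕ) (x : W.H X) :
    W.cl X D ^ m * x = x * W.cl X D ^ m := (as_pow hD m).comm x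

lemma pow_add' (a b c : ℕ) (h : a + b = c) :
    W.cl X D ^ a * W.cl X D ^ b = W.cl X D ^ c := by
  rw [← pow_add, h]

/-- Rank one operators given by algebraic classes are algebraic. -/
lemma aop_rank {a : W.H X} {b : W.H Y} (ha : AS W X a) (hb : AS W Y b) :
    AOp W X Y ((W.tr X ∘ₗ LinearMap.mulRight W.K a).smulRight b) := by
  refine ⟨ext W a b, ha.ext hb, ?_⟩
  apply LinearMap.ext
  intro x
  rw [corr_apply, LinearMap.smulRight_apply, LinearMap.comp_apply, LinearMap.mulRight_apply]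
  have h1 : ext W a b * W.map (fst X Y) x = W.map (fst X Y) (a * x) * W.map (snd X Y) b := by
    rw [map_mul, mul_assoc, ← (hb.map (snd X Y)).comm (W.map (fst X Y) x), ← mul_assoc]
    rfl
  rw [h1, push_snd, ha.comm]

/-- The weight of a rank one operator. -/
lemma hm_rank {a : W.H X} {b : W.H Y} {i j : ℕ} (ha : a ∈ W.gr X i) (hb : b ∈ W.gr Y j) :
    Hm W ((i : ℤ) + j - X.dim - Y.dim) ((W.tr X ∘ₗ LinearMap.mulRight W.K a).smulRight b) := by
  apply gr_ext (W.isInternal X)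
  intro l x hx
  rw [LinearMap.comp_apply, LinearMap.add_apply, LinearMap.comp_apply, LinearMap.smul_apply,
    Fr.wt_gr hx, map_smul, LinearMap.smulRight_apply, LinearMap.comp_apply,
    LinearMap.mulRight_apply, map_smul, Fr.wt_gr hb]
  by_cases h : l + i = 2 * X.dim
  · rw [smul_smul, smul_smul, smul_smul, ← add_smul]
    congr 1
    have h' : (l : W.K) + i = 2 * X.dim := by exact_mod_cast h
    push_cast
    linear_combination (-(W.tr X (x * a))) * h'
  · rw [W.tr_eq_zero (W.mul_mem hx ha) h]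
    simp

lemma aop_rk (q : ℚ) {a b : W.H X} (ha : AS W X a) (hb : AS W X b) :
    AOp W X X (rk W X (q : W.K) a b) := by
  have h1 := aop_rank ha (hb.smul 2)
  have h2 := (AOp.one (W := W) (X := X)).smul (-q)
  have h3 : rk W X (q : W.K) a b =
      (W.tr X ∘ₗ LinearMap.mulRight W.K a).smulRight (((2 : ℚ) : W.K) • b) +
        ((-q : ℚ) : W.K) • 1 := by
    rw [rk, sub_eq_add_neg]
    push_cast
    congr 1
    exact (neg_smul _ _).symm
  rw [h3]
  exact h1.add h2

lemma hm_rk (c : W.K) {a b : W.H X} {i j : ℕ} (ha : a ∈ W.gr X i) (hb : b ∈ W.gr X j)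
    (h : i + j = 2 * X.dim) : Hm W 0 (rk W X c a b) := by
  have h1 := hm_rank ha (Submodule.smul_mem _ (2 : W.K) hb)
  rw [show (i : ℤ) + j - X.dim - X.dim = 0 by
    have : (i : ℤ) + j = 2 * X.dim := by exact_mod_cast h
    linarith] at h1
  have h2 := (Hm.one (W := W) (X := X)).smul (-c)
  have h3 := h1.add h2
  have h4 : rk W X c a b =
      (W.tr X ∘ₗ LinearMap.mulRight W.K a).smulRight ((2 : W.K) • b) + (-c) • LinearMap.id := by
    rw [rk, sub_eq_add_neg]
    congr 1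
    exact (neg_smul _ _).symm
  rw [h4]
  exact h3

/-- The operator `ε` on the cohomology of degree two. -/
noncomputable def eps (W : WeilCohomology.{u, v} ops) (X : 𝒱.Obj) (D : X.Cycles) :
    Module.End W.K (W.H X) :=
  rk W X (W.tr X (W.cl X D ^ X.dim)) (W.cl X D ^ (X.dim - 1)) (W.cl X D)

/-- The operator `ε'` on the cohomology of degree `2 n - 2`. -/
noncomputable def eps' (W : WeilCohomology.{u, v} ops) (X : 𝒱.Obj) (D : X.Cycles) :
    Module.End W.K (W.H X) :=
  rk W X (W.tr X (W.cl X D ^ X.dim)) (W.cl X D) (W.cl X D ^ (X.dim - 1))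

/-- The degree of the divisor is rational. -/
lemma deg_rat (hD : X.IsCyc 1 D) : ∃ q : ℚ, W.tr X (W.cl X D ^ X.dim) = q := (as_pow hD _).tr

lemma eps_aop (hD : X.IsCyc 1 D) : AOp W X X (eps W X D) := by
  obtain ⟨q, hq⟩ := deg_rat (W := W) hD
  rw [eps, hq]
  exact aop_rk q (as_pow hD _) (AS.of ⟨D, hD, rfl⟩)

lemma eps'_aop (hD : X.IsCyc 1 D) : AOp W X X (eps' W X D) := by
  obtain ⟨q, hq⟩ := deg_rat (W := W) hD
  rw [eps', hq]
  exact aop_rk q (AS.of ⟨D, hD, rfl⟩) (as_pow hD _)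

lemma eps_hm (hn : 1 ≤ X.dim) (hD : X.IsCyc 1 D) : Hm W 0 (eps W X D) :=
  hm_rk _ (pow_mem hD _) (W.cl_mem hD) (by omega)

lemma eps'_hm (hn : 1 ≤ X.dim) (hD : X.IsCyc 1 D) : Hm W 0 (eps' W X D) :=
  hm_rk _ (W.cl_mem hD) (pow_mem hD _) (by omega)

/-- The form in terms of `ε`. -/
lemma form2_eps (hn : 2 ≤ X.dim) (hD : X.IsCyc 1 D) (x y : W.H X) :
    form2 W X D x y = W.tr X (x * (W.cl X D ^ (X.dim - 2) * eps W X D y)) := by
  rw [eps, rk_apply, mul_sub, mul_smul_comm, mul_smul_comm, mul_sub, mul_smul_comm,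
    mul_smul_comm, map_sub, map_smul, map_smul, smul_eq_mul, smul_eq_mul, ← pow_succ,
    show X.dim - 2 + 1 = X.dim - 1 by omega, pow_comm hD (X.dim - 2) y, ← mul_assoc, form2_eq]
  ring

lemma form2_symm {x y : W.H X} (hx : x ∈ W.gr X 2) (hy : y ∈ W.gr X 2) :
    form2 W X D x y = form2 W X D y x := by
  rw [form2_eq, form2_eq, W.comm hx hy]
  norm_num
  ring

lemma form2_add (x y z : W.H X) :
    form2 W X D (x + y) z = form2 W X D x z + form2 W X D y z := by
  rw [form2_eq, form2_eq, form2_eq, add_mul, add_mul, add_mul, map_add, map_add]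
  ring

lemma form2_smul (c : W.K) (x y : W.H X) :
    form2 W X D (c • x) y = c * form2 W X D x y := by
  rw [form2_eq, form2_eq, smul_mul_assoc, smul_mul_assoc, smul_mul_assoc, map_smul, map_smul,
    smul_eq_mul, smul_eq_mul]
  ring

/-- The square of `ε`. -/
lemma eps_eps (hn : 1 ≤ X.dim) (x : W.H X) :
    eps W X D (eps W X D x) = (W.tr X (W.cl X D ^ X.dim)) ^ 2 • x := by
  set δ := W.tr X (W.cl X D ^ X.dim) with hδ
  have h1 : W.tr X (W.cl X D * W.cl X D ^ (X.dim - 1)) = δ := by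
    rw [← pow_succ', show X.dim - 1 + 1 = X.dim by omega]
  rw [eps, ← hδ, rk_apply, rk_apply, sub_mul, smul_mul_assoc, smul_mul_assoc, map_sub, map_smul,
    map_smul, h1, smul_eq_mul, smul_eq_mul]
  module

/-- The operators `ε` and `ε'`. -/
lemma pow_eps (hn : 2 ≤ X.dim) (hD : X.IsCyc 1 D) (x : W.H X) :
    W.cl X D ^ (X.dim - 2) * eps W X D x = eps' W X D (W.cl X D ^ (X.dim - 2) * x) := by
  rw [eps, eps', rk_apply, rk_apply, mul_sub, mul_smul_comm, mul_smul_comm, ← pow_succ,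
    show X.dim - 2 + 1 = X.dim - 1 by omega, pow_comm hD (X.dim - 2) x, mul_assoc, ← pow_succ,
    show X.dim - 2 + 1 = X.dim - 1 by omega]

end Pool.Agent.H846.Deg2
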