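import Pool.Agent.H846.Deg2.Form
import Pool.Agent.H846.Hdt.Main

/-!
# Operators of cycles of codimension two
-/

open CategoryTheory AlgebraicGeometry Finset

universe u v

namespace Pool.Agent.H846.Deg2

open Pool.Agent.H914 Pool.Agent.H914.VarClass Pool.Agent.H914.VarClass.Obj
  Pool.Agent.H914.WeilCohomology Pool.Agent.H281R3.HT Pool.Agent.W552 Pool.Agent.W539.Ker
  Pool.Agent.R911.Iso Pool.Agent.H447 Pool.Agent.H846.Det Pool.Agent.H846.Plc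
  Pool.Agent.H846.Hdt

variable {k : Type u} [Field k] {𝒱 : VarClass k} {ops : CycleOps 𝒱}
  {W : WeilCohomology.{u, v} ops} {X Y Z : 𝒱.Obj}

/-- The degrees of the images under a homogeneous operator. -/
lemma Hm.mem {m : ℤ} {u : W.H X →ₗ[W.K] W.H Y} (h : Hm W m u) {i j : ℕ} {x : W.H X}
    (hx : x ∈ W.gr X i) (hj : (j : ℤ) = i - X.dim + m + Y.dim) : u x ∈ W.gr Y j := by
  have h1 := h.apply x
  rw [Fr.wt_gr hx, map_smul, ← add_smul] at h1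
  refine (mem_gr_of_wt (W.isInternal Y) (n := Y.dim) (fun i hi => W.gr_eq_bot Y i (by omega))
    h1).1 j ?_
  have h2 : ((j : ℤ) : W.K) = ((i - X.dim + m + Y.dim : ℤ) : W.K) := by rw [hj]
  push_cast at h2
  rw [h2]
  ring

/-- The operators of the cycles of codimension two. -/
def Z2 (W : WeilCohomology.{u, v} ops) (X Y : 𝒱.Obj) (u : W.H X →ₗ[W.K] W.H Y) : Prop :=
  AOp W X Y u ∧ Hm W (2 * (2 : ℕ) - (X.prod Y).dim) u

lemma z2_cyc {z : (X.prod Y).Cycles} (hz : (X.prod Y).IsCyc 2 z) :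
    Z2 W X Y (W.corr (W.cl _ z)) :=
  ⟨⟨_, AS.of ⟨z, hz, rfl⟩, rfl⟩, hm_cyc hz⟩

namespace Z2

variable {u : W.H X →ₗ[W.K] W.H Y}

lemma cyc (h : Z2 W X Y u) : ∃ z, (X.prod Y).IsCyc 2 z ∧ W.corr (W.cl _ z) = u := by
  obtain ⟨c, ⟨z, hz, rfl⟩, hc⟩ := class_of_aop (p := 2) h.1 h.2
  exact ⟨z, hz, hc⟩

lemma zero : Z2 W X Y 0 := ⟨AOp.zero, Hm.zero⟩

lemma add {u' : W.H X →ₗ[W.K] W.H Y} (h : Z2 W X Y u) (h' : Z2 W X Y u') :
    Z2 W X Y (u + u') := ⟨h.1.add h'.1, h.2.add h'.2⟩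

lemma smul (q : ℚ) (h : Z2 W X Y u) : Z2 W X Y ((q : W.K) • u) :=
  ⟨h.1.smul q, h.2.smul _⟩

lemma sub {u' : W.H X →ₗ[W.K] W.H Y} (h : Z2 W X Y u) (h' : Z2 W X Y u') :
    Z2 W X Y (u - u') := by
  convert h.add (h'.smul (-1)) using 1
  push_cast
  module

/-- The adjoint for the trace forms. -/
lemma adj (h : Z2 W X Y u) :
    ∃ u', Z2 W Y X u' ∧ ∀ a b, W.tr Y (u a * b) = W.tr X (a * u' b) := by
  obtain ⟨z, hz, rfl⟩ := h.cyc
  refine ⟨W.corr (W.cl _ (ops.pull (swap Y X) z)), z2_cyc (ops.pull_mem _ hz), fun a b => ?_⟩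
  rw [W.cl_pull]
  exact (AS.of (W := W) ⟨z, hz, rfl⟩).tr_corr a b

end Z2

/-- The power of the Lefschetz operator. -/
noncomputable def Lp (W : WeilCohomology.{u, v} ops) (X : 𝒱.Obj) (D : X.Cycles) :
    Module.End W.K (W.H X) := LinearMap.mulLeft W.K (W.cl X D ^ (X.dim - 2))

variable {D : X.Cycles} {E : Y.Cycles}

lemma Lp_apply (x : W.H X) : Lp W X D x = W.cl X D ^ (X.dim - 2) * x := rfl

lemma Lp_aop (hD : X.IsCyc 1 D) : AOp W X X (Lp W X D) := by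
  have h := as_pow (W := W) hD (X.dim - 2)
  have h1 := HKn.mul_aop (W := W) (divPow_mem (ops := ops) hD (X.dim - 2)
    (X.V.fundCycle_mem : X.IsCyc 0 X.V.fundCycle))
  rw [cl_divPow, W.cl_fund, LinearMap.pow_mulLeft, LinearMap.mulLeft_apply, mul_one] at h1
  exact h1

lemma Lp_hm (hD : X.IsCyc 1 D) : Hm W (2 * (X.dim - 2 : ℕ)) (Lp W X D) := by
  apply gr_ext (W.isInternal X)
  intro i a ha
  have h1 : Lp W X D a ∈ W.gr X (2 * (X.dim - 2) + i) := W.mul_mem (pow_mem hD _) ha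
  rw [LinearMap.comp_apply, LinearMap.add_apply, LinearMap.comp_apply, LinearMap.smul_apply,
    Fr.wt_gr ha, map_smul, Fr.wt_gr h1, ← add_smul]
  congr 1
  push_cast
  ring

/-- The operator `u L ^ (n - 2)` on the cohomology in degree two. -/
lemma u_mem (hn : 2 ≤ X.dim) (hD : X.IsCyc 1 D) {u : W.H X →ₗ[W.K] W.H Y}
    (h : Z2 W X Y u) {x : W.H X} (hx : x ∈ W.gr X 2) : u (Lp W X D x) ∈ W.gr Y 2 := by
  apply Hm.mem (h.2.comp (Lp_hm hD)) hx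
  rw [dim_prod]
  push_cast [Nat.cast_sub hn]
  ring

lemma z2_mul (hn : 2 ≤ X.dim) (hD : X.IsCyc 1 D) {u : W.H X →ₗ[W.K] W.H Y} (h : Z2 W X Y u)
    {u' : W.H Z →ₗ[W.K] W.H X} (h' : Z2 W Z X u') : Z2 W Z Y (u ∘ₗ Lp W X D ∘ₗ u') := by
  refine ⟨h.1.comp ((Lp_aop hD).comp h'.1), ?_⟩
  have h1 := h.2.comp ((Lp_hm hD).comp h'.2)
  rw [show (2 * (2 : ℕ) - (X.prod Y).dim + (2 * (X.dim - 2 : ℕ) + (2 * (2 : ℕ) -
    (Z.prod X).dim)) : ℤ) = 2 * (2 : ℕ) - (Z.prod Y).dim by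
      rw [dim_prod, dim_prod, dim_prod]
      push_cast [Nat.cast_sub hn]
      ring] at h1
  exact h1

lemma z2_left (h0 : 1 ≤ Y.dim) (hE : Y.IsCyc 1 E) {u : W.H X →ₗ[W.K] W.H Y}
    (h : Z2 W X Y u) : Z2 W X Y (eps W Y E ∘ₗ u) := by
  refine ⟨(eps_aop hE).comp h.1, ?_⟩
  have h1 := (eps_hm (W := W) h0 hE).comp h.2
  rwa [zero_add] at h1

lemma z2_right (h0 : 1 ≤ X.dim) (hD : X.IsCyc 1 D) {u : W.H X →ₗ[W.K] W.H Y}
    (h : Z2 W X Y u) : Z2 W X Y (u ∘ₗ eps' W X D) := by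
  refine ⟨h.1.comp (eps'_aop hD), ?_⟩
  have h1 := h.2.comp (eps'_hm (W := W) h0 hD)
  rwa [add_zero] at h1

end Pool.Agent.H846.Deg2
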